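import Pool.Agent.N356.SP.DefsK

set_option autoImplicit false

/-! Project LK (helper356), GK6b: averaging over positions. -/

namespace Pool.Agent.N698.LK

open Finset

theorem perm_sum {Γ : Type*} (C : Finset Γ) {N : ℕ} (σ : Equiv.Perm (Fin N))
    (G : (Fin N → Γ) → ℝ) :
    ∑ x ∈ Fintype.piFinset (fun _ : Fin N => C), G (x ∘ σ) =
      ∑ x ∈ Fintype.piFinset (fun _ : Fin N => C), G x := by
  refine Finset.sum_nbij' (fun x => x ∘ σ) (fun x => x ∘ σ.symm) ?_ ?_ ?_ ?_ ?_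
  · intro x hx
    rw [Fintype.mem_piFinset] at hx ⊢
    intro i
    exact hx _
  · intro x hx
    rw [Fintype.mem_piFinset] at hx ⊢
    intro i
    exact hx _
  · intro x _
    funext i
    simp
  · intro x _
    funext i
    simp
  · intro x _
    rfl

/-- the value does not depend on the positions -/
theorem pos_sum {Γ : Type*} (C : Finset Γ) {N m : ℕ} (I : (Fin N → Γ) → ℝ)
    (hI : ∀ (σ : Equiv.Perm (Fin N)) x, I (x ∘ σ) = I x) (F : (Fin m → Γ) → ℝ)
    (e e' : Fin m → Fin N) (he : Function.Injective e) (he' : Function.Injective e') :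
    ∑ x ∈ Fintype.piFinset (fun _ : Fin N => C), F (x ∘ e) * I x =
      ∑ x ∈ Fintype.piFinset (fun _ : Fin N => C), F (x ∘ e') * I x := by
  have := (Equiv.Perm.isMultiplyPretransitive (Fin N) m)
  obtain ⟨σ, hσ⟩ := MulAction.exists_smul_eq (Equiv.Perm (Fin N))
    (⟨e', he'⟩ : Fin m ↪ Fin N) ⟨e, he⟩
  have h : ∀ a, σ (e' a) = e a := by
    intro a
    have := congrArg (fun f : Fin m ↪ Fin N => f a) hσ
    simpa using this
  have h2 : ∀ x : Fin N → Γ, x ∘ e = (x ∘ σ) ∘ e' := by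
    intro x
    funext a
    simp [h a]
  rw [← perm_sum C σ (fun x => F (x ∘ e') * I x)]
  refine Finset.sum_congr rfl fun x _ => ?_
  rw [h2 x, hI σ x]

/-- sum over one further position, different from those in `s` -/
theorem cnt (N : ℕ) (s : Finset (Fin N)) (c : ℝ) :
    ∑ l : Fin N, (if l ∉ s then c else 0) = ((N : ℝ) - s.card) * c := by
  rw [← Finset.sum_filter, Finset.sum_const, nsmul_eq_mul]
  congr 1
  have h : (univ.filter fun l => l ∉ s) = univ \ s := by
    ext l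
    simp
  rw [h, Finset.card_sdiff_of_subset (Finset.subset_univ s), Finset.card_univ, Fintype.card_fin,
    Nat.cast_sub]
  simpa using Finset.card_le_univ s

theorem symm2 {Γ : Type*} (C : Finset Γ) (n : ℕ) (I : (Fin (n + 2) → Γ) → ℝ)
    (hI : ∀ (σ : Equiv.Perm (Fin (n + 2))) x, I (x ∘ σ) = I x) (F : Γ → Γ → ℝ) :
    ((n:ℝ) + 2) * ((n:ℝ) + 1) *
        ∑ x ∈ Fintype.piFinset (fun _ : Fin (n + 2) => C), F (x 0) (x 1) * I x =
      ∑ x ∈ Fintype.piFinset (fun _ : Fin (n + 2) => C),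
        (∑ i, ∑ j, if i ≠ j then F (x i) (x j) else 0) * I x := by
  set A := ∑ x ∈ Fintype.piFinset (fun _ : Fin (n + 2) => C), F (x 0) (x 1) * I x with hA
  have h1 : ∀ i j : Fin (n + 2), i ≠ j →
      ∑ x ∈ Fintype.piFinset (fun _ : Fin (n + 2) => C), F (x i) (x j) * I x = A := by
    intro i j hij
    have := pos_sum C I hI (fun y : Fin 2 → Γ => F (y 0) (y 1)) ![i, j] ![0, 1]
      (by
        intro a b hab
        fin_cases a <;> fin_cases b <;> simp_all)
      (by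
        intro a b hab
        fin_cases a <;> fin_cases b <;> simp_all)
    simpa using this
  have h2 : ∑ x ∈ Fintype.piFinset (fun _ : Fin (n + 2) => C),
        (∑ i, ∑ j, if i ≠ j then F (x i) (x j) else 0) * I x =
      ∑ i, ∑ j, if i ≠ j then
        ∑ x ∈ Fintype.piFinset (fun _ : Fin (n + 2) => C), F (x i) (x j) * I x else 0 := by
    simp only [Finset.sum_mul]
    rw [Finset.sum_comm]
    refine Finset.sum_congr rfl fun i _ => ?_
    rw [Finset.sum_comm]
    refine Finset.sum_congr rfl fun j _ => ?_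
    split_ifs
    · rfl
    · simp
  rw [h2]
  have h3 : ∀ i : Fin (n + 2), (∑ j, if i ≠ j then
      ∑ x ∈ Fintype.piFinset (fun _ : Fin (n + 2) => C), F (x i) (x j) * I x else 0) =
      ((n:ℝ) + 1) * A := by
    intro i
    have : (∑ j, if i ≠ j then
      ∑ x ∈ Fintype.piFinset (fun _ : Fin (n + 2) => C), F (x i) (x j) * I x else 0) =
        ∑ j, if j ∉ ({i} : Finset (Fin (n + 2))) then A else 0 := by
      refine Finset.sum_congr rfl fun j _ => ?_
      by_cases hij : i = j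
      · simp [hij]
      · rw [if_pos hij, if_pos (by simpa using Ne.symm hij), h1 i j hij]
    rw [this, cnt, Finset.card_singleton]
    push_cast
    ring
  rw [Finset.sum_congr rfl fun i _ => h3 i]
  simp
  ring

theorem symm4 {Γ : Type*} (C : Finset Γ) (n : ℕ) (I : (Fin (n + 4) → Γ) → ℝ)
    (hI : ∀ (σ : Equiv.Perm (Fin (n + 4))) x, I (x ∘ σ) = I x) (F : Γ → Γ → Γ → Γ → ℝ) :
    ((n:ℝ) + 4) * ((n:ℝ) + 3) * ((n:ℝ) + 2) * ((n:ℝ) + 1) *
        ∑ x ∈ Fintype.piFinset (fun _ : Fin (n + 4) => C), F (x 0) (x 1) (x 2) (x 3) * I x =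
      ∑ x ∈ Fintype.piFinset (fun _ : Fin (n + 4) => C),
        (∑ i, ∑ j, ∑ k, ∑ l, if i ≠ j ∧ i ≠ k ∧ i ≠ l ∧ j ≠ k ∧ j ≠ l ∧ k ≠ l then
          F (x i) (x j) (x k) (x l) else 0) * I x := by
  set A := ∑ x ∈ Fintype.piFinset (fun _ : Fin (n + 4) => C),
    F (x 0) (x 1) (x 2) (x 3) * I x with hA
  have h1 : ∀ i j k l : Fin (n + 4), (i ≠ j ∧ i ≠ k ∧ i ≠ l ∧ j ≠ k ∧ j ≠ l ∧ k ≠ l) →
      ∑ x ∈ Fintype.piFinset (fun _ : Fin (n + 4) => C),
        F (x i) (x j) (x k) (x l) * I x = A := by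
    rintro i j k l ⟨a1, a2, a3, a4, a5, a6⟩
    have := pos_sum C I hI (fun y : Fin 4 → Γ => F (y 0) (y 1) (y 2) (y 3)) ![i, j, k, l]
      ![0, 1, 2, 3]
      (by
        intro a b hab
        fin_cases a <;> fin_cases b <;> simp_all [Ne.symm a1, Ne.symm a2, Ne.symm a3,
          Ne.symm a4, Ne.symm a5, Ne.symm a6])
      (by
        intro a b hab
        have hv : ∀ c : Fin 4, ((![0, 1, 2, 3] : Fin 4 → Fin (n + 4)) c : ℕ) = c := by
          intro c
          fin_cases c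
          · simp
          · simp
          · exact Nat.mod_eq_of_lt (show 2 < n + 4 by omega)
          · exact Nat.mod_eq_of_lt (show 3 < n + 4 by omega)
        exact Fin.ext (by rw [← hv a, ← hv b, hab]))
    simpa using this
  have h2 : ∑ x ∈ Fintype.piFinset (fun _ : Fin (n + 4) => C),
        (∑ i, ∑ j, ∑ k, ∑ l, if i ≠ j ∧ i ≠ k ∧ i ≠ l ∧ j ≠ k ∧ j ≠ l ∧ k ≠ l then
          F (x i) (x j) (x k) (x l) else 0) * I x =
      ∑ i, ∑ j, ∑ k, ∑ l, if i ≠ j ∧ i ≠ k ∧ i ≠ l ∧ j ≠ k ∧ j ≠ l ∧ k ≠ l then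
        ∑ x ∈ Fintype.piFinset (fun _ : Fin (n + 4) => C),
          F (x i) (x j) (x k) (x l) * I x else 0 := by
    simp only [Finset.sum_mul]
    rw [Finset.sum_comm]
    refine Finset.sum_congr rfl fun i _ => ?_
    rw [Finset.sum_comm]
    refine Finset.sum_congr rfl fun j _ => ?_
    rw [Finset.sum_comm]
    refine Finset.sum_congr rfl fun k _ => ?_
    rw [Finset.sum_comm]
    refine Finset.sum_congr rfl fun l _ => ?_
    split_ifs
    · rfl
    · simp
  rw [h2]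
  have h3 : ∀ i j k : Fin (n + 4), (∑ l, if i ≠ j ∧ i ≠ k ∧ i ≠ l ∧ j ≠ k ∧ j ≠ l ∧ k ≠ l then
        ∑ x ∈ Fintype.piFinset (fun _ : Fin (n + 4) => C),
          F (x i) (x j) (x k) (x l) * I x else 0) =
      if i ≠ j ∧ i ≠ k ∧ j ≠ k then ((n:ℝ) + 1) * A else 0 := by
    intro i j k
    by_cases hc : i ≠ j ∧ i ≠ k ∧ j ≠ k
    · rw [if_pos hc]
      obtain ⟨a1, a2, a4⟩ := hc
      have : (∑ l, if i ≠ j ∧ i ≠ k ∧ i ≠ l ∧ j ≠ k ∧ j ≠ l ∧ k ≠ l then
        ∑ x ∈ Fintype.piFinset (fun _ : Fin (n + 4) => C),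
          F (x i) (x j) (x k) (x l) * I x else 0) =
          ∑ l, if l ∉ ({i, j, k} : Finset (Fin (n + 4))) then A else 0 := by
        refine Finset.sum_congr rfl fun l _ => ?_
        by_cases hl : l ∉ ({i, j, k} : Finset (Fin (n + 4)))
        · rw [if_pos hl]
          simp only [Finset.mem_insert, Finset.mem_singleton, not_or] at hl
          have hh : i ≠ j ∧ i ≠ k ∧ i ≠ l ∧ j ≠ k ∧ j ≠ l ∧ k ≠ l :=
            ⟨a1, a2, Ne.symm hl.1, a4, Ne.symm hl.2.1, Ne.symm hl.2.2⟩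
          rw [if_pos hh, h1 i j k l hh]
        · rw [if_neg hl]
          have hh : ¬ (i ≠ j ∧ i ≠ k ∧ i ≠ l ∧ j ≠ k ∧ j ≠ l ∧ k ≠ l) := by
            rintro ⟨-, -, b1, -, b2, b3⟩
            apply hl
            simp only [Finset.mem_insert, Finset.mem_singleton, not_or]
            exact ⟨Ne.symm b1, Ne.symm b2, Ne.symm b3⟩
          rw [if_neg hh]
      rw [this, cnt, Finset.card_eq_three.mpr ⟨i, j, k, a1, a2, a4, rfl⟩]
      push_cast
      ring
    · rw [if_neg hc]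
      refine Finset.sum_eq_zero fun l _ => ?_
      rw [if_neg]
      rintro ⟨b1, b2, -, b4, -, -⟩
      exact hc ⟨b1, b2, b4⟩
  have h4 : ∀ i j : Fin (n + 4), (∑ k, if i ≠ j ∧ i ≠ k ∧ j ≠ k then ((n:ℝ) + 1) * A else 0) =
      if i ≠ j then ((n:ℝ) + 2) * (((n:ℝ) + 1) * A) else 0 := by
    intro i j
    by_cases hc : i ≠ j
    · rw [if_pos hc]
      have : (∑ k, if i ≠ j ∧ i ≠ k ∧ j ≠ k then ((n:ℝ) + 1) * A else 0) =
          ∑ l, if l ∉ ({i, j} : Finset (Fin (n + 4))) then ((n:ℝ) + 1) * A else 0 := by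
        refine Finset.sum_congr rfl fun l _ => ?_
        refine if_congr ?_ rfl rfl
        simp only [Finset.mem_insert, Finset.mem_singleton, not_or]
        constructor
        · rintro ⟨-, b1, b2⟩
          exact ⟨Ne.symm b1, Ne.symm b2⟩
        · rintro ⟨b1, b2⟩
          exact ⟨hc, Ne.symm b1, Ne.symm b2⟩
      rw [this, cnt, Finset.card_pair hc]
      push_cast
      ring
    · rw [if_neg hc]
      refine Finset.sum_eq_zero fun l _ => ?_
      rw [if_neg]
      rintro ⟨b1, -, -⟩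
      exact hc b1
  have h5 : ∀ i : Fin (n + 4), (∑ j, if i ≠ j then ((n:ℝ) + 2) * (((n:ℝ) + 1) * A) else 0) =
      ((n:ℝ) + 3) * (((n:ℝ) + 2) * (((n:ℝ) + 1) * A)) := by
    intro i
    have : (∑ j, if i ≠ j then ((n:ℝ) + 2) * (((n:ℝ) + 1) * A) else 0) =
        ∑ l, if l ∉ ({i} : Finset (Fin (n + 4))) then
          ((n:ℝ) + 2) * (((n:ℝ) + 1) * A) else 0 := by
      refine Finset.sum_congr rfl fun l _ => ?_
      refine if_congr ?_ rfl rfl
      simp only [Finset.mem_singleton]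
      exact ⟨Ne.symm, Ne.symm⟩
    rw [this, cnt, Finset.card_singleton]
    push_cast
    ring
  simp only [h3, h4, h5]
  simp
  ring

end Pool.Agent.N698.LK
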